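import Mathlib

/-!
# MP_1409ae_co, Q1: the classes `𝒫` and `𝒰` differ

An explicit order on ten elements has a proper totally bounded tolerance representation but no
unit totally bounded tolerance representation.
-/

namespace Pool.Agent.Results.MP_1409ae_co.UnitProper

/-- A bounded bitolerance representation of the strict order `r` on `V`: closed real intervals
`[L v, R v]` and tolerant points `p v`, `q v` with `L v < p v ≤ R v`, `L v ≤ q v < R v`, such that
for distinct `x, y`, `x ≺ y` iff `R x < p y` and `q x < L y`. -/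
structure BitolRep {V : Type} (r : V → V → Prop) where
  /-- left endpoints -/
  L : V → ℝ
  /-- right endpoints -/
  R : V → ℝ
  /-- left tolerant points -/
  p : V → ℝ
  /-- right tolerant points -/
  q : V → ℝ
  L_lt_p : ∀ v, L v < p v
  p_le_R : ∀ v, p v ≤ R v
  L_le_q : ∀ v, L v ≤ q v
  q_lt_R : ∀ v, q v < R v
  rel_iff : ∀ x y, x ≠ y → (r x y ↔ R x < p y ∧ q x < L y)

/-- The two tolerances `p v - L v` and `R v - q v` of every `v` are equal. -/
def BitolRep.Tolerance {V : Type} {r : V → V → Prop} (ρ : BitolRep r) : Prop :=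
  ∀ v, ρ.p v - ρ.L v = ρ.R v - ρ.q v

/-- Totally bounded: `p v ≤ q v` for every `v`. -/
def BitolRep.TotallyBounded {V : Type} {r : V → V → Prop} (ρ : BitolRep r) : Prop :=
  ∀ v, ρ.p v ≤ ρ.q v

/-- Unit: all the intervals have the same length. -/
def BitolRep.Unit {V : Type} {r : V → V → Prop} (ρ : BitolRep r) : Prop :=
  ∀ x y, ρ.R x - ρ.L x = ρ.R y - ρ.L y

/-- Proper: no interval is properly contained in another one. -/
def BitolRep.Proper {V : Type} {r : V → V → Prop} (ρ : BitolRep r) : Prop :=
  ∀ x y, ¬ (Set.Icc (ρ.L x) (ρ.R x) ⊂ Set.Icc (ρ.L y) (ρ.R y))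

/-- `r` belongs to the class `𝒰` (unit, tolerance, totally bounded, simultaneously). -/
def InU {V : Type} (r : V → V → Prop) : Prop :=
  ∃ ρ : BitolRep r, ρ.Unit ∧ ρ.Tolerance ∧ ρ.TotallyBounded

/-- `r` belongs to the class `𝒫` (proper, tolerance, totally bounded, simultaneously). -/
def InP {V : Type} (r : V → V → Prop) : Prop :=
  ∃ ρ : BitolRep r, ρ.Proper ∧ ρ.Tolerance ∧ ρ.TotallyBounded

/-- left endpoints of the example -/
def eL : Fin 10 → ℤ := ![0, 12, 27, 36, 45, 57, 14, 13, 37, 39]

/-- right endpoints of the example -/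
def eR : Fin 10 → ℤ := ![21, 33, 42, 51, 66, 78, 41, 39, 64, 65]

/-- tolerances of the example -/
def eT : Fin 10 → ℤ := ![10, 10, 7, 7, 10, 10, 6, 1, 6, 1]

/-- the order of the example -/
def eRel (x y : Fin 10) : Prop := eR x < eL y + eT y ∧ eR x - eT x < eL y

instance : DecidableRel eRel := fun x y => by unfold eRel; infer_instance

lemma eRel_strict : IsStrictOrder (Fin 10) eRel where
  irrefl := by decide
  trans := by decide

lemma eRel_inP : InP eRel := by
  refine ⟨{ L := fun v => (eL v : ℝ), R := fun v => (eR v : ℝ),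
            p := fun v => (eL v : ℝ) + (eT v : ℝ), q := fun v => (eR v : ℝ) - (eT v : ℝ),
            L_lt_p := ?_, p_le_R := ?_, L_le_q := ?_, q_lt_R := ?_, rel_iff := ?_ },
          ?_, ?_, ?_⟩
  · intro v
    have h : ∀ v : Fin 10, eL v < eL v + eT v := by decide
    exact_mod_cast h v
  · intro v
    have h : ∀ v : Fin 10, eL v + eT v ≤ eR v := by decide
    exact_mod_cast h v
  · intro v
    have h : ∀ v : Fin 10, eL v ≤ eR v - eT v := by decide
    exact_mod_cast h v
  · intro v
    have h : ∀ v : Fin 10, eR v - eT v < eR v := by decide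
    exact_mod_cast h v
  · intro x y _
    unfold eRel
    constructor
    · rintro ⟨h1, h2⟩
      exact ⟨by exact_mod_cast h1, by exact_mod_cast h2⟩
    · rintro ⟨h1, h2⟩
      exact ⟨by exact_mod_cast h1, by exact_mod_cast h2⟩
  · intro x y hxy
    simp only at hxy
    have hsub := hxy.subset
    have hxx : (eL x : ℝ) ≤ (eR x : ℝ) := by
      have h : ∀ v : Fin 10, eL v ≤ eR v := by decide
      exact_mod_cast h x
    have hne : x ≠ y := by
      rintro rfl
      exact hxy.ne rfl
    rw [Set.Icc_subset_Icc_iff hxx] at hsub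
    have h1 : eL y ≤ eL x := by exact_mod_cast hsub.1
    have h2 : eR x ≤ eR y := by exact_mod_cast hsub.2
    have h : ∀ x y : Fin 10, x ≠ y → eL y ≤ eL x → ¬ eR x ≤ eR y := by decide
    exact h x y hne h1 h2
  · intro v
    simp
  · intro v
    have h : ∀ v : Fin 10, eL v + eT v ≤ eR v - eT v := by decide
    show (eL v : ℝ) + (eT v : ℝ) ≤ (eR v : ℝ) - (eT v : ℝ)
    exact_mod_cast h v

lemma real_core (L t : Fin 10 → ℝ) (W : ℝ) (hpos : ∀ v, 0 < t v) (htb : ∀ v, 2 * t v ≤ W)
    (hc : ∀ x y, eRel x y → L x + W - t x < L y ∧ L x + W - t y < L y)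
    (hi : ∀ x y, ¬ eRel x y → x ≠ y → L y ≤ L x + W - min (t x) (t y)) : False := by
  have hil : ∀ x y, t x ≤ t y → ¬ eRel x y → ¬ eRel y x → x ≠ y →
      L y ≤ L x + W - t x ∧ L x ≤ L y + W - t x := by
    intro x y h h1 h2 hne
    have a := hi x y h1 hne
    have b := hi y x h2 hne.symm
    rw [min_eq_left h] at a
    rw [min_eq_right h] at b
    exact ⟨a, b⟩
  have c01 := hc 0 1 (by decide)
  have c12 := hc 1 2 (by decide)
  have c23 := hc 2 3 (by decide)
  have c34 := hc 3 4 (by decide)
  have c45 := hc 4 5 (by decide)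
  have c63 := hc 6 3 (by decide)
  have c28 := hc 2 8 (by decide)
  have c79 := hc 7 9 (by decide)
  have p7 := hpos 7
  have p8 := hpos 8
  have p9 := hpos 9
  have b1 := htb 1
  have b3 := htb 3
  have b5 := htb 5
  have b7 := htb 7
  rcases le_total (t 5) (t 8) with h58 | h58
  · have i58 := hil 5 8 h58 (by decide) (by decide) (by decide)
    rcases le_total (t 3) (t 8) with h38 | h38
    · have i38 := hil 3 8 h38 (by decide) (by decide) (by decide)
      linarith [i58.1, i58.2, i38.1, i38.2, c34.1, c34.2, c45.1, c45.2]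
    · have i38 := hil 8 3 h38 (by decide) (by decide) (by decide)
      rcases le_total (t 4) (t 8) with h48 | h48
      · linarith [i58.1, i58.2, i38.1, i38.2, c34.1, c34.2, c45.1, c45.2]
      · rcases le_total (t 7) (t 8) with h78 | h78
        · have i78 := hil 7 8 h78 (by decide) (by decide) (by decide)
          linarith [i58.1, i58.2, i78.1, i78.2, (hc 7 4 (by decide)).1, (hc 7 4 (by decide)).2,
            c45.1, c45.2]
        · have i78 := hil 8 7 h78 (by decide) (by decide) (by decide)
          rcases le_total (t 6) (t 9) with h69 | h69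
          · have i69 := hil 6 9 h69 (by decide) (by decide) (by decide)
            linarith [i58.1, i58.2, i78.1, i78.2, i69.1, i69.2, c63.1, c63.2, c34.1, c34.2,
              c79.1, c79.2, c45.1, c45.2]
          · have i69 := hil 9 6 h69 (by decide) (by decide) (by decide)
            linarith [i58.1, i58.2, i78.1, i78.2, i69.1, i69.2, c63.1, c63.2, c34.1, c34.2,
              c79.1, c79.2, c45.1, c45.2]
  · have i58 := hil 8 5 h58 (by decide) (by decide) (by decide)
    rcases le_total (t 7) (t 8) with h78 | h78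
    · have i78 := hil 7 8 h78 (by decide) (by decide) (by decide)
      rcases le_total (t 7) (t 0) with h70 | h70
      · have i70 := hil 7 0 h70 (by decide) (by decide) (by decide)
        rcases le_total (t 6) (t 9) with h69 | h69
        · have i69 := hil 6 9 h69 (by decide) (by decide) (by decide)
          linarith [i58.1, i58.2, i78.1, i78.2, i70.1, i70.2, i69.1, i69.2, c63.1, c63.2,
            c34.1, c34.2, c79.1, c79.2, c45.1, c45.2, c12.1, c12.2, c01.1, c01.2, c28.1, c28.2]
        · have i69 := hil 9 6 h69 (by decide) (by decide) (by decide)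
          rcases le_total (t 6) (t 0) with h60 | h60
          · have i60 := hil 6 0 h60 (by decide) (by decide) (by decide)
            linarith [i58.1, i58.2, i78.1, i78.2, i70.1, i70.2, i69.1, i69.2, i60.1, i60.2,
              c63.1, c63.2, c34.1, c34.2, c79.1, c79.2, c45.1, c45.2, c12.1, c12.2, c01.1, c01.2,
              c28.1, c28.2]
          · have i60 := hil 0 6 h60 (by decide) (by decide) (by decide)
            linarith [i58.1, i58.2, i78.1, i78.2, i70.1, i70.2, i69.1, i69.2, i60.1, i60.2,
              c23.1, c23.2, c34.1, c34.2, c79.1, c79.2, c45.1, c45.2, c12.1, c12.2, c01.1, c01.2,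
              c28.1, c28.2]
      · have i70 := hil 0 7 h70 (by decide) (by decide) (by decide)
        linarith [i58.1, i58.2, i78.1, i78.2, i70.1, i70.2, c34.1, c34.2, c12.1, c12.2,
          c45.1, c45.2, c01.1, c01.2, c23.1, c23.2]
    · have i78 := hil 8 7 h78 (by decide) (by decide) (by decide)
      rcases le_total (t 7) (t 0) with h70 | h70
      · have i70 := hil 7 0 h70 (by decide) (by decide) (by decide)
        linarith [i78.1, i78.2, i70.1, i70.2, c12.1, c12.2, c01.1, c01.2, c28.1, c28.2]
      · have i70 := hil 0 7 h70 (by decide) (by decide) (by decide)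
        linarith [i58.1, i58.2, i78.1, i78.2, i70.1, i70.2, c34.1, c34.2, c12.1, c12.2,
          c45.1, c45.2, c01.1, c01.2, c23.1, c23.2]

lemma eRel_not_inU : ¬ InU eRel := by
  rintro ⟨ρ, hU, hT, hB⟩
  have hR : ∀ v, ρ.R v = ρ.L v + (ρ.R 0 - ρ.L 0) := by
    intro v
    have := hU v 0
    linarith
  have hq : ∀ v, ρ.q v = ρ.R v - (ρ.p v - ρ.L v) := by
    intro v
    have := hT v
    linarith
  refine real_core ρ.L (fun v => ρ.p v - ρ.L v) (ρ.R 0 - ρ.L 0) ?_ ?_ ?_ ?_
  · intro v
    have := ρ.L_lt_p v
    linarith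
  · intro v
    have h1 := hB v
    have h2 := hq v
    have h3 := hR v
    linarith
  · intro x y hxy
    have hne : x ≠ y := by
      rintro rfl
      revert hxy
      revert x
      decide
    obtain ⟨h1, h2⟩ := (ρ.rel_iff x y hne).1 hxy
    have h3 := hR x
    have h4 := hq x
    constructor <;> linarith
  · intro x y hxy hne
    have h0 : ¬ (ρ.R x < ρ.p y ∧ ρ.q x < ρ.L y) := fun h => hxy ((ρ.rel_iff x y hne).2 h)
    have h3 := hR x
    have h4 := hq x
    by_contra hcon
    push Not at hcon
    apply h0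
    have hm1 := min_le_left (ρ.p x - ρ.L x) (ρ.p y - ρ.L y)
    have hm2 := min_le_right (ρ.p x - ρ.L x) (ρ.p y - ρ.L y)
    constructor <;> linarith

lemma InU.inP {V : Type} {r : V → V → Prop} (h : InU r) : InP r := by
  obtain ⟨ρ, hU, hT, hB⟩ := h
  refine ⟨ρ, ?_, hT, hB⟩
  intro x y hxy
  have hx : ρ.L x ≤ ρ.R x := by
    have := ρ.L_lt_p x
    have := ρ.p_le_R x
    linarith
  have hsub := (Set.Icc_subset_Icc_iff hx).1 hxy.subset
  have hl := hU x y
  have h1 : ρ.L x = ρ.L y := by linarith [hsub.1, hsub.2]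
  have h2 : ρ.R x = ρ.R y := by linarith [hsub.1, hsub.2]
  rw [h1, h2] at hxy
  exact hxy.ne rfl

/-- **Main result.** Every order in `𝒰` is in `𝒫`, and there is a strict order on ten elements
that is in `𝒫` but not in `𝒰`; so `𝒫 ≠ 𝒰`. -/
theorem result :
    (∀ (V : Type) [Finite V] (r : V → V → Prop), IsStrictOrder V r → InU r → InP r) ∧
    ∃ (V : Type) (_ : Fintype V) (r : V → V → Prop),
      Fintype.card V = 10 ∧ IsStrictOrder V r ∧ InP r ∧ ¬ InU r :=
  ⟨fun _ _ _ _ h => h.inP,
    Fin 10, inferInstance, eRel, by simp, eRel_strict, eRel_inP, eRel_not_inU⟩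

end Pool.Agent.Results.MP_1409ae_co.UnitProper
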